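import Pool.Agent.Helper341.Alt.W2.Check
import Pool.Agent.Helper341.Alt.Asm
set_option autoImplicit false

/-!
In alternative rings with `2 = 0`: `N1d a (as b w z) b (s * s) = 0`.
-/

namespace Pool.Agent.Helper341.Alt.W2
open Pool.Agent.Helper928.Nuc.Tens Pool.Agent.Helper341.Alt.Asm

section
variable {A : Type} [NonUnitalNonAssocRing A] (hA : Alt2 A) (a b s z : A)
include hA

lemma lwb (u : Mon) (n : ℕ) (h : (ex u).1 = n) : Bd n (lw u) := by subst h; exact (des hA 0 0 0 0 u).bl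
lemma rwb (u : Mon) (n : ℕ) (h : (ex u).1 = n) : Bd n (rw u) := by subst h; exact (des hA 0 0 0 0 u).br
lemma dwb (u : Mon) (n : ℕ) (h : (ex u).1 = n) : Bd n (dw u) := by
  unfold dw; rw [app_eq]; exact (lwb hA u n h).append (rwb hA u n h)
lemma lwe (u : Mon) (n : ℕ) (h : (ex u).1 = n) : el a b s z n (lw u) = LL (val a b s z u) := by
  subst h; exact (des hA a b s z u).l
lemma rwe (u : Mon) (n : ℕ) (h : (ex u).1 = n) : el a b s z n (rw u) = RR (val a b s z u) := by
  subst h; exact (des hA a b s z u).r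
lemma dwe (u : Mon) (n : ℕ) (h : (ex u).1 = n) : el a b s z n (dw u) = LL (val a b s z u) + RR (val a b s z u) := by
  unfold dw; rw [app_eq, el_append, lwe hA a b s z u n h, rwe hA a b s z u n h]

lemma Om_val : el a b s z 5 Om =
    (LL a + RR a) * ((((RR (a * (s * s)) + RR ((s * s) * a)) * (LL b + RR b)) +
      ((LL ((a * b) * (s * s)) + RR ((a * b) * (s * s))) + (LL (a * (b * (s * s))) + RR (a * (b * (s * s)))))) +
     (((LL (a * b) + LL (b * a)) * (LL (s * s) + RR (s * s))) +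
      ((LL a + RR a) * (RR (s * s) * RR b + RR (b * (s * s)))))) +
    ((((LL ((a * b) * (a * (s * s))) + RR ((a * b) * (a * (s * s)))) + (LL ((a * b) * ((s * s) * a)) + RR ((a * b) * ((s * s) * a)))) +
      ((LL ((b * a) * (a * (s * s))) + RR ((b * a) * (a * (s * s)))) + (LL ((b * a) * ((s * s) * a)) + RR ((b * a) * ((s * s) * a))))) +
     (((LL (a * ((a * b) * (s * s))) + RR (a * ((a * b) * (s * s)))) + (LL (((a * b) * (s * s)) * a) + RR (((a * b) * (s * s)) * a))) +
      ((LL (a * (a * (b * (s * s)))) + RR (a * (a * (b * (s * s))))) + (LL ((a * (b * (s * s))) * a) + RR ((a * (b * (s * s))) * a))))) := by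
  have hin1 : Bd 4 (cat 1 (app (rw (.m .a mC)) (rw (.m mC .a))) (dw .b)) := by
    rw [app_eq]
    exact cat_bd ((rwb hA _ 3 rfl).append (rwb hA _ 3 rfl)) (dwb hA .b 1 rfl) rfl
  have hin2 : Bd 4 (app (dw (.m (.m .a .b) mC)) (dw (.m .a (.m .b mC)))) := by
    rw [app_eq]; exact (dwb hA _ 4 rfl).append (dwb hA _ 4 rfl)
  have hin3 : Bd 4 (cat 2 (app (lw (.m .a .b)) (lw (.m .b .a))) (dw mC)) := by
    rw [app_eq]
    exact cat_bd ((lwb hA _ 2 rfl).append (lwb hA _ 2 rfl)) (dwb hA mC 2 rfl) rfl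
  have hin4b : Bd 3 (app (cat 1 (rw mC) (rw .b)) (rw (.m .b mC))) := by
    rw [app_eq]
    exact (cat_bd (rwb hA mC 2 rfl) (rwb hA .b 1 rfl) rfl).append (rwb hA _ 3 rfl)
  have hin4 : Bd 4 (cat 3 (dw .a) (app (cat 1 (rw mC) (rw .b)) (rw (.m .b mC)))) :=
    cat_bd (dwb hA .a 1 rfl) hin4b rfl
  unfold Om
  simp only [app_eq] at *
  rw [el_append, el_cat (m := 1) a b s z ((hin1.append hin2).append (hin3.append hin4)) rfl]
  simp only [el_append]
  rw [el_cat (m := 3) (k := 1) a b s z (dwb hA .b 1 rfl) rfl,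
    el_cat (m := 2) (k := 2) a b s z (dwb hA mC 2 rfl) rfl,
    el_cat (m := 1) (k := 3) a b s z hin4b rfl]
  simp only [el_append]
  rw [el_cat (m := 2) (k := 1) a b s z (rwb hA .b 1 rfl) rfl]
  rw [dwe hA a b s z .a 1 rfl, dwe hA a b s z .b 1 rfl, dwe hA a b s z mC 2 rfl,
    rwe hA a b s z (.m .a mC) 3 rfl, rwe hA a b s z (.m mC .a) 3 rfl, rwe hA a b s z mC 2 rfl,
    rwe hA a b s z .b 1 rfl, rwe hA a b s z (.m .b mC) 3 rfl, lwe hA a b s z (.m .a .b) 2 rfl,
    lwe hA a b s z (.m .b .a) 2 rfl, dwe hA a b s z (.m (.m .a .b) mC) 4 rfl,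
    dwe hA a b s z (.m .a (.m .b mC)) 4 rfl,
    dwe hA a b s z (.m (.m .a .b) (.m .a mC)) 5 rfl, dwe hA a b s z (.m (.m .a .b) (.m mC .a)) 5 rfl,
    dwe hA a b s z (.m (.m .b .a) (.m .a mC)) 5 rfl, dwe hA a b s z (.m (.m .b .a) (.m mC .a)) 5 rfl,
    dwe hA a b s z (.m .a (.m (.m .a .b) mC)) 5 rfl, dwe hA a b s z (.m (.m (.m .a .b) mC) .a) 5 rfl,
    dwe hA a b s z (.m .a (.m .a (.m .b mC))) 5 rfl, dwe hA a b s z (.m (.m .a (.m .b mC)) .a) 5 rfl]
  rfl

omit hA in
lemma e_add (f g : AddMonoid.End A) (x : A) : (f + g) x = f x + g x := rfl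
omit hA in
lemma e_mul (f g : AddMonoid.End A) (x : A) : (f * g) x = f (g x) := rfl
omit hA in
lemma e_L (y x : A) : (LL y : AddMonoid.End A) x = y * x := rfl
omit hA in
lemma e_R (y x : A) : (RR y : AddMonoid.End A) x = x * y := rfl

lemma sub2 (x y : A) : x - y = x + y := by rw [sub_eq_add_neg, neg2 hA]

lemma Om_apply (d : A) : el a b s z 5 Om d = N1d a d b (s * s) := by
  rw [Om_val hA]
  unfold N1d qq br as
  simp only [e_add, e_mul, e_L, e_R, sub2 hA, mul_add, add_mul]
  abel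

lemma T_apply (w : A) : el a b s z 7 T w = N1d a (as b w z) b (s * s) := by
  have hb : Bd 2 [7 * 8 + 2, 2 * 8 + 7] := by
    intro c hc
    simp only [List.mem_cons, List.not_mem_nil, or_false] at hc
    rcases hc with rfl | rfl <;> norm_num
  have h2 : el a b s z 2 [7 * 8 + 2, 2 * 8 + 7] = RR z * LL b + LL b * RR z := by
    unfold el
    rw [S_cons, S_cons, S_nil, add_zero]
    rfl
  have h1 : el a b s z 7 T = el a b s z 5 OmL * el a b s z 2 [7 * 8 + 2, 2 * 8 + 7] := el_cat a b s z hb rfl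
  have h3 : el a b s z 5 Om = el a b s z 5 OmL := el_congr hA a b s z 5 Om OmL checkOm
  have h4 : el a b s z 7 T = el a b s z 5 Om * (RR z * LL b + LL b * RR z) := by
    rw [h1, h2]
    exact congrArg (fun t => t * (RR z * LL b + LL b * RR z)) h3.symm
  have h5 : el a b s z 7 T w = el a b s z 5 Om ((b * w) * z + b * (w * z)) := by
    rw [h4]
    generalize el a b s z 5 Om = f
    rw [e_mul, e_add, e_mul, e_mul, e_L, e_R, e_L, e_R]
  have h6 : (b * w) * z + b * (w * z) = as b w z := (sub2 hA _ _).symm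
  exact h5.trans ((congrArg (fun t => el a b s z 5 Om t) h6).trans (Om_apply hA a b s z (as b w z)))

/-- the identity in characteristic two -/
theorem main (w : A) : N1d a (as b w z) b (s * s) = 0 := by
  have h := cert_sound hA a b s z C 7 T check
  have h2 := T_apply hA a b s z w
  rw [h] at h2
  exact h2.symm

end

/-- the linearized form -/
theorem main2 {A : Type} [NonUnitalNonAssocRing A] (hA : IsAlt A) (h2 : ∀ x : A, x + x = 0) (a b w z p q : A) :
    N1d a (as b w z) b (br p q) = 0 := by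
  have hA' : Alt2 A := ⟨h2, fun x y => (hA.left x y), fun x y => (hA.right x y)⟩
  have h := main hA' a b (p + q) z w
  have e : (p + q) * (p + q) = (p * p + q * q) + br p q := by
    unfold br; rw [sub2 hA']; simp only [mul_add, add_mul]; abel
  rw [e, Asm.N1d_add, Asm.N1d_add, main hA', main hA', zero_add, zero_add] at h
  exact h

end Pool.Agent.Helper341.Alt.W2
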