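import Pool.Agent.Helper341.Alt.W2.Target
set_option autoImplicit false

/-! The kernel check of the certificate. -/

namespace Pool.Agent.Helper341.Alt.W2

set_option maxRecDepth 100000 in
theorem check : Nat.beq (total C 7) (bits T) = true := by decide +kernel

end Pool.Agent.Helper341.Alt.W2
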