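import Pool.Agent.Helper341.Alt.W2.Word
set_option autoImplicit false

/-! Certificate data (found by computer). -/

namespace Pool.Agent.Helper341.Alt.W2

/-- decoding of lists of words -/
noncomputable def dec (B : ℕ) (c : ℕ) : ℕ → List ℕ :=
  Nat.rec (motive := fun _ => ℕ → List ℕ) (fun _ => []) (fun _ ih x => Nat.mod x B :: ih (Nat.div x B)) c
noncomputable def d7 (c x : ℕ) : List ℕ := dec 0x1000000 c x
noncomputable def d6 (c x : ℕ) : List ℕ := dec 0x100000 c x
noncomputable def d5 (c x : ℕ) : List ℕ := dec 0x10000 c x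
noncomputable def d4 (c x : ℕ) : List ℕ := dec 0x1000 c x
/-- concatenation of lists of items -/
noncomputable def apI (l l' : List Item) : List Item :=
  List.rec (motive := fun _ => List Item) l' (fun c _ ih => c :: ih) l

def M0 : Mon := .m Mon.b Mon.s
def M1 : Mon := .m Mon.b Mon.z
def M2 : Mon := .m Mon.s Mon.b
def M3 : Mon := .m Mon.z Mon.b
def M4 : Mon := .m Mon.a Mon.b
def M5 : Mon := .m Mon.a Mon.s
def M6 : Mon := .m Mon.a Mon.z
def M7 : Mon := .m Mon.b Mon.a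
def M8 : Mon := .m Mon.s Mon.a
def M9 : Mon := .m Mon.z Mon.a
def M10 : Mon := .m Mon.s Mon.z
def M11 : Mon := .m Mon.z Mon.s
def M12 : Mon := .m Mon.s Mon.s
def M13 : Mon := .m M12 Mon.b
def M14 : Mon := .m Mon.b Mon.b
def M15 : Mon := .m M14 Mon.a
def M16 : Mon := .m M2 Mon.a
def M17 : Mon := .m M11 Mon.a
def M18 : Mon := .m Mon.s M8
def M19 : Mon := .m M7 Mon.a
def M20 : Mon := .m M8 Mon.b
def M21 : Mon := .m M12 Mon.a
def M22 : Mon := .m Mon.b M5
def M23 : Mon := .m Mon.b M6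
def M24 : Mon := .m Mon.a Mon.a
def M25 : Mon := .m Mon.s M24
def M26 : Mon := .m Mon.s M2
def M27 : Mon := .m Mon.z M24
def M28 : Mon := .m M2 Mon.b
def M29 : Mon := .m M3 Mon.a
def M30 : Mon := .m M3 Mon.s
def M31 : Mon := .m Mon.s M6
def M32 : Mon := .m Mon.s M7
def M33 : Mon := .m Mon.s M1
def M34 : Mon := .m Mon.z M14
def M35 : Mon := .m M8 Mon.a
def M36 : Mon := .m M12 M14
def M37 : Mon := .m M34 Mon.a
def M38 : Mon := .m M25 Mon.b
def M39 : Mon := .m M12 M24
def M40 : Mon := .m Mon.b M24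
def M41 : Mon := .m Mon.s M40
def M42 : Mon := .m M10 Mon.b
def M43 : Mon := .m M9 Mon.b
def M44 : Mon := .m Mon.z M4
def M45 : Mon := .m M14 Mon.z
def M46 : Mon := .m Mon.s M14
def M47 : Mon := .m M21 Mon.b
def M48 : Mon := .m M9 M14
def M49 : Mon := .m Mon.z M15
def M50 : Mon := .m Mon.z M46
def M51 : Mon := .m M11 Mon.b
def M52 : Mon := .m M34 Mon.s
def M53 : Mon := .m M9 Mon.s
def M54 : Mon := .m Mon.b M12
def M55 : Mon := .m Mon.a M12
def M56 : Mon := .m Mon.z M21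
def M57 : Mon := .m Mon.z M5
def M58 : Mon := .m M57 Mon.b
def M59 : Mon := .m Mon.s M43
def M60 : Mon := .m Mon.s M4
def M61 : Mon := .m M31 Mon.b
def M62 : Mon := .m M44 Mon.s
def M63 : Mon := .m M1 Mon.a
def M64 : Mon := .m Mon.s M63
def M65 : Mon := .m M10 Mon.a
def M66 : Mon := .m Mon.z M2
def M67 : Mon := .m M66 Mon.a
def M68 : Mon := .m M27 Mon.b
def M69 : Mon := .m M27 Mon.s
def M70 : Mon := .m Mon.z M40
def M71 : Mon := .m Mon.z M25
def M72 : Mon := .m M0 Mon.a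
def M73 : Mon := .m M13 Mon.a
def M74 : Mon := .m M3 M24
def M75 : Mon := .m M27 M14
def M76 : Mon := .m M46 Mon.a

end Pool.Agent.Helper341.Alt.W2
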