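import Pool.Agent.Helper341.Alt.W2.Data4
set_option autoImplicit false

/-! The target. -/

namespace Pool.Agent.Helper341.Alt.W2

/-- `s ^ 2` -/
def mC : Mon := .m .s .s
/-- words of the left multiplication -/
noncomputable def lw (u : Mon) : List ℕ := (ex u).2.1
/-- words of the right multiplication -/
noncomputable def rw (u : Mon) : List ℕ := (ex u).2.2
/-- words of the sum of the left and right multiplication -/
noncomputable def dw (u : Mon) : List ℕ := app (lw u) (rw u)

/-- the operator `d ↦ N1d a d b (s * s)` -/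
noncomputable def Om : List ℕ :=
  app (cat 4 (dw .a) (app (app (cat 1 (app (rw (.m .a mC)) (rw (.m mC .a))) (dw .b))
      (app (dw (.m (.m .a .b) mC)) (dw (.m .a (.m .b mC)))))
    (app (cat 2 (app (lw (.m .a .b)) (lw (.m .b .a))) (dw mC))
      (cat 3 (dw .a) (app (cat 1 (rw mC) (rw .b)) (rw (.m .b mC)))))))
  (app (app (app (dw (.m (.m .a .b) (.m .a mC))) (dw (.m (.m .a .b) (.m mC .a))))
      (app (dw (.m (.m .b .a) (.m .a mC))) (dw (.m (.m .b .a) (.m mC .a)))))
    (app (app (dw (.m .a (.m (.m .a .b) mC))) (dw (.m (.m (.m .a .b) mC) .a)))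
      (app (dw (.m .a (.m .a (.m .b mC)))) (dw (.m (.m .a (.m .b mC)) .a)))))

/-- the reduced list of words -/
def OmL : List ℕ := [164, 165, 172, 228, 229, 236, 298, 354, 362, 676, 677, 684, 802, 803, 810, 866, 875, 1125, 1132, 1133, 1312, 1313, 1384, 1385, 1573, 1580, 1581, 1636, 1637, 1644, 1825, 1897, 2314, 2315, 2378, 2379, 2384, 2385, 2392, 2826, 2827, 2832, 2833, 2840, 2896, 2897, 2904, 4260, 4269, 4772, 4773, 4780, 4898, 4899, 4906, 4962, 4971, 5221, 5228, 5229, 5408, 5409, 5416, 5417, 5472, 5473, 6403, 6417, 6424, 6425, 6480, 6928, 6979, 6992, 6993, 7000, 7001, 8228, 8237, 8292, 8293, 8300, 8480, 8481, 8489, 8545, 8552, 8740, 8749, 8804, 8805, 8812, 8992, 8993, 9001, 9057, 9064, 10560, 10561, 10569, 11008, 11009, 11017, 11072, 11073, 11081, 12324, 12333, 12388, 12389, 12396, 12577, 12649, 18499, 18506, 18507, 18513, 18520, 18521, 18947, 18954, 18955, 18960, 18969, 19072, 19073, 19081, 19137, 22531, 22538, 22539, 22544, 22553, 22656, 22657, 22665, 22721, 23043, 23050, 23051,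 23056, 23065, 23107, 23114, 23115, 23121, 23128, 23129, 23168, 23169, 23177, 23233]

/-- the words of `w ↦ N1d a (b, w, z) b (s * s)` -/
noncomputable def T : List ℕ := cat 2 OmL [7 * 8 + 2, 2 * 8 + 7]

theorem checkOm : Nat.beq (bits Om) (bits OmL) = true := by decide +kernel

end Pool.Agent.Helper341.Alt.W2
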