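import Mathlib
set_option autoImplicit false

/-!
Operator words in characteristic two, stored as bitsets.

The letters are left and right multiplications by four elements `a`, `b`, `s`, `z` of a ring; a word
of length `n` is a number below `8 ^ n` (base `8` digits, the last digit acts first); a polynomial
over the field with two elements is a natural number whose binary digits are its coefficients.
-/

namespace Pool.Agent.Helper341.Alt.W2

/-- the polynomial of a list of words -/
noncomputable def bits (l : List ℕ) : ℕ :=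
  List.rec (motive := fun _ => ℕ) 0 (fun c _ ih => Nat.xor (Nat.shiftLeft 1 c) ih) l

/-- concatenation of lists -/
noncomputable def app (l l' : List ℕ) : List ℕ :=
  List.rec (motive := fun _ => List ℕ) l' (fun c _ ih => c :: ih) l

/-- product of lists of words, the second one of words of length `k` -/
noncomputable def cat (k : ℕ) (l1 l2 : List ℕ) : List ℕ :=
  List.rec (motive := fun _ => List ℕ) []
    (fun x _ ih => List.rec (motive := fun _ => List ℕ) ih
      (fun y _ ih2 => Nat.add (Nat.mul x (Nat.pow 8 k)) y :: ih2) l2) l1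

/-- the polynomial of the words of a list, each followed by `k` zero digits -/
noncomputable def bitsk (k : ℕ) (l : List ℕ) : ℕ :=
  List.rec (motive := fun _ => ℕ) 0 (fun c _ ih => Nat.xor (Nat.shiftLeft 1 (Nat.mul c (Nat.pow 8 k))) ih) l

/-- nonassociative monomials in four letters -/
inductive Mon
  | a : Mon
  | b : Mon
  | s : Mon
  | z : Mon
  | m : Mon → Mon → Mon

/-- the words of the operator `[L_u, R_v]` -/
noncomputable def XX (p q : ℕ × (List ℕ × List ℕ)) : List ℕ :=
  app (cat q.1 p.2.1 q.2.2) (cat p.1 q.2.2 p.2.1)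

/-- degree, words of the left multiplication and words of the right multiplication -/
noncomputable def ex (u : Mon) : ℕ × (List ℕ × List ℕ) :=
  Mon.rec (motive := fun _ => ℕ × (List ℕ × List ℕ)) (1, ([0], [1])) (1, ([2], [3])) (1, ([4], [5])) (1, ([6], [7]))
    (fun _ _ p q => (Nat.add p.1 q.1, (app (cat q.1 p.2.1 q.2.1) (XX p q), app (cat p.1 q.2.2 p.2.2) (XX p q)))) u

/-- a family of multiples of relations: `r u v k ws` and, for `u = v`, `q u k ws` -/
inductive Item
  | r : Mon → Mon → ℕ → List ℕ → Item
  | q : Mon → ℕ → List ℕ → Item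

/-- is this shift admissible? -/
noncomputable def ok (n D k w : ℕ) : Bool :=
  Bool.rec false (Bool.rec false (Nat.ble (Nat.succ (Nat.mod w (Nat.pow 8 (Nat.add D k)))) (Nat.pow 8 k))
    (Nat.ble (Nat.succ w) (Nat.pow 8 n))) (Nat.ble (Nat.add D k) n)

/-- the sum of the shifts of `E` -/
noncomputable def sh (n D k E : ℕ) (ws : List ℕ) : ℕ :=
  List.rec (motive := fun _ => ℕ) 0
    (fun w _ ih => Bool.rec ih (Nat.xor (Nat.shiftLeft E w) ih) (ok n D k w)) ws

/-- the polynomial of an item -/
noncomputable def itm (n : ℕ) (i : Item) : ℕ :=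
  Item.rec (motive := fun _ => ℕ)
    (fun u v k ws => sh n (Nat.add (ex u).1 (ex v).1) k (bitsk k (app (XX (ex u) (ex v)) (XX (ex v) (ex u)))) ws)
    (fun u k ws => sh n (Nat.add (ex u).1 (ex u).1) k (bitsk k (XX (ex u) (ex u))) ws) i

/-- the polynomial of a list of items -/
noncomputable def itms (n : ℕ) (l : List Item) : ℕ :=
  List.rec (motive := fun _ => ℕ) 0 (fun i _ ih => Nat.xor (itm n i) ih) l

/-- certificates -/
inductive Cert
  | o : Cert
  | n : List Item → Cert → Cert → Cert → Cert → Cert → Cert → Cert → Cert → Cert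

/-- the polynomial of a certificate -/
noncomputable def total (c : Cert) : ℕ → ℕ :=
  Cert.rec (motive := fun _ => ℕ → ℕ) (fun _ => 0)
    (fun l _ _ _ _ _ _ _ _ h0 h1 h2 h3 h4 h5 h6 h7 n =>
      Nat.rec (motive := fun _ => ℕ) 0
        (fun n' _ => Nat.xor (itms (Nat.succ n') l)
          (Nat.xor (Nat.shiftLeft (h0 n') (Nat.mul 0 (Nat.pow 8 n')))
          (Nat.xor (Nat.shiftLeft (h1 n') (Nat.mul 1 (Nat.pow 8 n')))
          (Nat.xor (Nat.shiftLeft (h2 n') (Nat.mul 2 (Nat.pow 8 n')))
          (Nat.xor (Nat.shiftLeft (h3 n') (Nat.mul 3 (Nat.pow 8 n')))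
          (Nat.xor (Nat.shiftLeft (h4 n') (Nat.mul 4 (Nat.pow 8 n')))
          (Nat.xor (Nat.shiftLeft (h5 n') (Nat.mul 5 (Nat.pow 8 n')))
          (Nat.xor (Nat.shiftLeft (h6 n') (Nat.mul 6 (Nat.pow 8 n')))
            (Nat.shiftLeft (h7 n') (Nat.mul 7 (Nat.pow 8 n')))))))))))
        n) c

/-! ### Bitsets and sums -/
section parity
variable {G : Type*} [AddCommGroup G]

/-- sum over a list -/
def S (f : ℕ → G) (l : List ℕ) : G := (l.map f).sum

lemma S_nil (f : ℕ → G) : S f [] = 0 := rfl
lemma S_cons (f : ℕ → G) (c : ℕ) (l : List ℕ) : S f (c :: l) = f c + S f l := by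
  unfold S; rw [List.map_cons, List.sum_cons]
lemma S_append (f : ℕ → G) (l l' : List ℕ) : S f (l ++ l') = S f l + S f l' := by
  unfold S; rw [List.map_append, List.sum_append]

lemma bits_nil : bits [] = 0 := rfl
lemma bits_cons (c : ℕ) (l : List ℕ) : bits (c :: l) = (1 <<< c) ^^^ bits l := rfl
lemma bits_append (l l' : List ℕ) : bits (l ++ l') = bits l ^^^ bits l' := by
  induction l with
  | nil => rw [List.nil_append, bits_nil, Nat.zero_xor]
  | cons c l ih => rw [List.cons_append, bits_cons, bits_cons, ih, Nat.xor_assoc]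
lemma bits_shift (l : List ℕ) (s : ℕ) : bits l <<< s = bits (l.map (· + s)) := by
  induction l with
  | nil => rw [List.map_nil, bits_nil, Nat.zero_shiftLeft]
  | cons c l ih =>
    rw [List.map_cons, bits_cons, bits_cons, ← ih, Nat.shiftLeft_xor_distrib, Nat.shiftLeft_add]

lemma app_eq (l l' : List ℕ) : app l l' = l ++ l' := by
  induction l with
  | nil => rfl
  | cons c l ih => rw [List.cons_append, ← ih]; rfl

lemma bitsk_eq (k : ℕ) (l : List ℕ) : bitsk k l = bits (l.map (fun c => c * 8 ^ k)) := by
  induction l with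
  | nil => rfl
  | cons c l ih => rw [List.map_cons, bits_cons, ← ih]; rfl

lemma S_bits (h2 : ∀ g : G, g + g = 0) (f : ℕ → G) (l : List ℕ) (N : ℕ) (hN : ∀ c ∈ l, c < N) :
    S f l = ∑ c ∈ Finset.range N, if (bits l).testBit c then f c else 0 := by
  induction l with
  | nil => simp [S_nil, bits_nil]
  | cons c l ih =>
    rw [S_cons, ih (fun d hd => hN d (List.mem_cons_of_mem _ hd)), bits_cons]
    have hc : c ∈ Finset.range N := Finset.mem_range.mpr (hN c List.mem_cons_self)
    have e1 : f c = ∑ i ∈ Finset.range N, if i = c then f i else 0 := by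
      rw [Finset.sum_ite_eq' (Finset.range N) c f, if_pos hc]
    rw [e1, ← Finset.sum_add_distrib]
    refine Finset.sum_congr rfl (fun i _ => ?_)
    rw [Nat.testBit_xor, Nat.one_shiftLeft, Nat.testBit_two_pow]
    by_cases hi : i = c
    · subst hi
      rw [if_pos rfl]
      cases h : (bits l).testBit i <;> simp [h2]
    · have hi' : ¬ (c = i) := fun h => hi h.symm
      rw [if_neg hi]
      simp [hi']

/-- equal bitsets have equal sums -/
lemma S_congr (h2 : ∀ g : G, g + g = 0) (f : ℕ → G) (l l' : List ℕ) (h : bits l = bits l') : S f l = S f l' := by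
  obtain ⟨N, hN⟩ : ∃ N, ∀ c ∈ l ++ l', c < N := by
    refine ⟨(l ++ l').sum + 1, fun c hc => Nat.lt_succ_of_le (List.le_sum_of_mem hc)⟩
  rw [S_bits h2 f l N (fun c hc => hN c (List.mem_append_left _ hc)),
    S_bits h2 f l' N (fun c hc => hN c (List.mem_append_right _ hc)), h]

end parity

/-! ### Evaluation -/
section ev
variable {A : Type} [NonUnitalNonAssocRing A] (a b s z : A)

/-- left multiplication -/
abbrev LL (x : A) : AddMonoid.End A := AddMonoidHom.mulLeft x
/-- right multiplication -/
abbrev RR (x : A) : AddMonoid.End A := AddMonoidHom.mulRight x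

/-- the letters -/
def op : ℕ → AddMonoid.End A
  | 0 => LL a
  | 1 => RR a
  | 2 => LL b
  | 3 => RR b
  | 4 => LL s
  | 5 => RR s
  | 6 => LL z
  | _ => RR z

/-- the operator of a word -/
def ev : ℕ → ℕ → AddMonoid.End A
  | 0, _ => 1
  | n + 1, c => ev n (c / 8) * op a b s z (c % 8)

lemma ev_zero (c : ℕ) : ev a b s z 0 c = 1 := rfl
lemma ev_succ (n c : ℕ) : ev a b s z (n + 1) c = ev a b s z n (c / 8) * op a b s z (c % 8) := rfl

lemma ev_cat (m k c1 c2 : ℕ) (h : c2 < 8 ^ k) :
    ev a b s z (m + k) (c1 * 8 ^ k + c2) = ev a b s z m c1 * ev a b s z k c2 := by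
  induction k generalizing c2 with
  | zero =>
    have : c2 = 0 := by simpa using h
    subst this
    rw [ev_zero]; simp
  | succ k ih =>
    have h0 : c1 * 8 ^ (k + 1) = 8 * (c1 * 8 ^ k) := by ring
    have h1 : (c1 * 8 ^ (k + 1) + c2) / 8 = c1 * 8 ^ k + c2 / 8 := by
      rw [h0]; omega
    have h2 : (c1 * 8 ^ (k + 1) + c2) % 8 = c2 % 8 := by
      rw [h0]; omega
    have h3 : c2 / 8 < 8 ^ k := by
      rw [pow_succ] at h; omega
    rw [← add_assoc, ev_succ, ev_succ, h1, h2, ih _ h3, mul_assoc]

/-- all words of a list have length `n` -/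
def Bd (n : ℕ) (l : List ℕ) : Prop := ∀ c ∈ l, c < 8 ^ n

lemma Bd.append {n : ℕ} {l l' : List ℕ} (h : Bd n l) (h' : Bd n l') : Bd n (l ++ l') := by
  intro c hc
  rcases List.mem_append.mp hc with h1 | h1
  · exact h c h1
  · exact h' c h1

lemma cat_cons (k x : ℕ) (l1 l2 : List ℕ) : cat k (x :: l1) l2 = l2.map (fun y => x * 8 ^ k + y) ++ cat k l1 l2 := by
  have : ∀ l : List ℕ, (List.rec (motive := fun _ => List ℕ) (cat k l1 l2)
      (fun y _ ih2 => Nat.add (Nat.mul x (Nat.pow 8 k)) y :: ih2) l : List ℕ) =
        l.map (fun y => x * 8 ^ k + y) ++ cat k l1 l2 := by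
    intro l
    induction l with
    | nil => rfl
    | cons y l ih => rw [List.map_cons, List.cons_append, ← ih]; rfl
  exact this l2

lemma cat_nil (k : ℕ) (l2 : List ℕ) : cat k [] l2 = [] := rfl

lemma cat_bd {m k n : ℕ} {l1 l2 : List ℕ} (h1 : Bd m l1) (h2 : Bd k l2) (hn : n = m + k) : Bd n (cat k l1 l2) := by
  subst hn
  induction l1 with
  | nil => intro c hc; rw [cat_nil] at hc; cases hc
  | cons x l1 ih =>
    rw [cat_cons]
    refine Bd.append ?_ (ih (fun c hc => h1 c (List.mem_cons_of_mem _ hc)))
    intro c hc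
    obtain ⟨y, hy, rfl⟩ := List.mem_map.mp hc
    have hx := h1 x List.mem_cons_self
    have hy := h2 y hy
    calc x * 8 ^ k + y < x * 8 ^ k + 8 ^ k := by omega
      _ = (x + 1) * 8 ^ k := by ring
      _ ≤ 8 ^ m * 8 ^ k := Nat.mul_le_mul_right _ hx
      _ = 8 ^ (m + k) := (pow_add 8 m k).symm

/-- the operator of a list of words -/
def el (n : ℕ) (l : List ℕ) : AddMonoid.End A := S (ev a b s z n) l

lemma el_append (n : ℕ) (l l' : List ℕ) : el a b s z n (l ++ l') = el a b s z n l + el a b s z n l' := S_append _ _ _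

lemma el_map (m k x : ℕ) (l : List ℕ) (h : Bd k l) :
    el a b s z (m + k) (l.map (fun y => x * 8 ^ k + y)) = ev a b s z m x * el a b s z k l := by
  induction l with
  | nil => rw [List.map_nil]; unfold el; rw [S_nil, S_nil, mul_zero]
  | cons y l ih =>
    have ih := ih (fun c hc => h c (List.mem_cons_of_mem _ hc))
    unfold el at ih ⊢
    rw [List.map_cons, S_cons, S_cons, ih, ev_cat a b s z m k x y (h y List.mem_cons_self), mul_add]

lemma el_cat {m k n : ℕ} {l1 l2 : List ℕ} (h2 : Bd k l2) (hn : n = m + k) :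
    el a b s z n (cat k l1 l2) = el a b s z m l1 * el a b s z k l2 := by
  subst hn
  induction l1 with
  | nil => rw [cat_nil]; unfold el; rw [S_nil, S_nil, zero_mul]
  | cons x l1 ih =>
    rw [cat_cons, el_append, el_map a b s z m k x l2 h2, ih]
    unfold el
    rw [S_cons, add_mul]

/-- value of a monomial -/
def val : Mon → A
  | .a => a
  | .b => b
  | .s => s
  | .z => z
  | .m u v => val u * val v

/-- `p` describes the left and right multiplications by `x` -/
structure Des (p : ℕ × (List ℕ × List ℕ)) (x : A) : Prop where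
  bl : Bd p.1 p.2.1
  br : Bd p.1 p.2.2
  l : el a b s z p.1 p.2.1 = LL x
  r : el a b s z p.1 p.2.2 = RR x

/-- alternative ring with `2 = 0` -/
structure Alt2 (A : Type) [NonUnitalNonAssocRing A] : Prop where
  two : ∀ x : A, x + x = 0
  left : ∀ x y : A, (x * x) * y = x * (x * y)
  right : ∀ x y : A, (y * x) * x = y * (x * x)

lemma XX_bd {p q : ℕ × (List ℕ × List ℕ)} {x y : A} (hp : Des a b s z p x) (hq : Des a b s z q y) :
    Bd (p.1 + q.1) (XX p q) := by
  unfold XX
  rw [app_eq]
  exact (cat_bd hp.bl hq.br rfl).append (cat_bd hq.br hp.bl (add_comm _ _))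

lemma XX_el {p q : ℕ × (List ℕ × List ℕ)} {x y : A} (hp : Des a b s z p x) (hq : Des a b s z q y) :
    el a b s z (p.1 + q.1) (XX p q) = LL x * RR y + RR y * LL x := by
  unfold XX
  rw [app_eq, el_append, el_cat a b s z hq.br rfl, el_cat a b s z hp.bl (add_comm _ _), hp.l, hq.r]

end ev

section alt
variable {A : Type} [NonUnitalNonAssocRing A] (hA : Alt2 A)
include hA

lemma neg2 (x : A) : -x = x := neg_eq_of_add_eq_zero_left (hA.two x)

lemma two_end (f : AddMonoid.End A) : f + f = 0 := by
  ext x; exact hA.two (f x)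

/-- `(x y) m + x (y m)` is alternating -/
lemma lin_left (x y m : A) : (x * y) * m + x * (y * m) = (y * x) * m + y * (x * m) := by
  have h := hA.left (x + y) m
  have hx := hA.left x m
  have hy := hA.left y m
  simp only [add_mul, mul_add] at h
  rw [hx, hy] at h
  have h' : (x * y) * m + (y * x) * m = x * (y * m) + y * (x * m) := by
    have := congrArg (fun t => t - x * (x * m) - y * (y * m)) h
    rw [show x * (x * m) + y * x * m + (x * y * m + y * (y * m)) - x * (x * m) - y * (y * m) =
      (x * y) * m + (y * x) * m by abel] at this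
    rw [this]; abel
  have h2 := congrArg (fun t => t + ((y * x) * m + x * (y * m))) h'
  rw [show x * y * m + y * x * m + (y * x * m + x * (y * m)) = (x * y * m + x * (y * m)) + (y * x * m + y * x * m) by abel,
    show x * (y * m) + y * (x * m) + (y * x * m + x * (y * m)) = (y * x * m + y * (x * m)) + (x * (y * m) + x * (y * m)) by abel,
    hA.two, hA.two, add_zero, add_zero] at h2
  exact h2

lemma lin_right (x y m : A) : (m * x) * y + m * (x * y) = (m * y) * x + m * (y * x) := by
  have h := hA.right (x + y) m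
  have hx := hA.right x m
  have hy := hA.right y m
  simp only [add_mul, mul_add] at h
  rw [hx, hy] at h
  have h' : (m * x) * y + (m * y) * x = m * (x * y) + m * (y * x) := by
    have := congrArg (fun t => t - m * (x * x) - m * (y * y)) h
    rw [show m * (x * x) + m * y * x + (m * x * y + m * (y * y)) - m * (x * x) - m * (y * y) =
      (m * x) * y + (m * y) * x by abel] at this
    rw [this]; abel
  have h2 := congrArg (fun t => t + ((m * y) * x + m * (x * y))) h'
  rw [show m * x * y + m * y * x + (m * y * x + m * (x * y)) = (m * x * y + m * (x * y)) + (m * y * x + m * y * x) by abel,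
    show m * (x * y) + m * (y * x) + (m * y * x + m * (x * y)) = (m * y * x + m * (y * x)) + (m * (x * y) + m * (x * y)) by abel,
    hA.two, hA.two, add_zero, add_zero] at h2
  exact h2

/-- middle associator in terms of the left one -/
lemma mid_left (x y m : A) : x * (m * y) + (x * m) * y = (x * y) * m + x * (y * m) := by
  have h := lin_right hA m y x
  rw [add_comm, h]

lemma mid_right (x y m : A) : x * (m * y) + (x * m) * y = (m * x) * y + m * (x * y) := by
  have h := lin_left hA m x y
  rw [add_comm, ← h]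

lemma mid_sym (x y m : A) : x * (m * y) + (x * m) * y = y * (m * x) + (y * m) * x := by
  rw [mid_left hA x y m, lin_left hA x y m, ← mid_left hA y x m]

lemma mid_self (x m : A) : x * (m * x) + (x * m) * x = 0 := by
  rw [mid_left hA x x m, hA.left, hA.two]

lemma LL_mul (x y : A) : LL (x * y) = LL x * LL y + (LL x * RR y + RR y * LL x) := by
  ext m
  show (x * y) * m = x * (y * m) + (x * (m * y) + (x * m) * y)
  rw [mid_left hA, add_comm (x * y * m), ← add_assoc, hA.two, zero_add]

lemma RR_mul (x y : A) : RR (x * y) = RR y * RR x + (LL x * RR y + RR y * LL x) := by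
  ext m
  show m * (x * y) = (m * x) * y + (x * (m * y) + (x * m) * y)
  rw [mid_right hA, ← add_assoc, hA.two, zero_add]

lemma X_symm (x y : A) : (LL x * RR y + RR y * LL x) + (LL y * RR x + RR x * LL y) = 0 := by
  ext m
  show (x * (m * y) + (x * m) * y) + (y * (m * x) + (y * m) * x) = 0
  rw [mid_sym hA x y m]; exact hA.two _

lemma X_self (x : A) : (LL x * RR x + RR x * LL x) = 0 := by
  ext m
  show (x * (m * x) + (x * m) * x) = 0
  exact mid_self hA x m

variable (a b s z : A)

omit [NonUnitalNonAssocRing A] hA in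
lemma ex_m (u v : Mon) : ex (.m u v) = ((ex u).1 + (ex v).1, (app (cat (ex v).1 (ex u).2.1 (ex v).2.1) (XX (ex u) (ex v)),
    app (cat (ex u).1 (ex v).2.2 (ex u).2.2) (XX (ex u) (ex v)))) := rfl

omit hA in
lemma des_letter (i : ℕ) (x : A) (hi : 2 * i + 1 < 8) (h0 : op a b s z (2 * i) = LL x) (h1 : op a b s z (2 * i + 1) = RR x) :
    Des a b s z (1, ([2 * i], [2 * i + 1])) x where
  bl := by intro c hc; simp only [List.mem_singleton] at hc; subst hc; simp; omega
  br := by intro c hc; simp only [List.mem_singleton] at hc; subst hc; simp; omega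
  l := by
    show S (ev a b s z 1) [2 * i] = LL x
    rw [S_cons, S_nil, add_zero, ev_succ, ev_zero, one_mul, Nat.mod_eq_of_lt (by omega : 2 * i < 8), h0]
  r := by
    show S (ev a b s z 1) [2 * i + 1] = RR x
    rw [S_cons, S_nil, add_zero, ev_succ, ev_zero, one_mul, Nat.mod_eq_of_lt (by omega : 2 * i + 1 < 8), h1]

lemma des_mul {p q : ℕ × (List ℕ × List ℕ)} {x y : A} (hp : Des a b s z p x) (hq : Des a b s z q y) :
    Des a b s z (p.1 + q.1, (app (cat q.1 p.2.1 q.2.1) (XX p q), app (cat p.1 q.2.2 p.2.2) (XX p q))) (x * y) where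
  bl := by
    show Bd (p.1 + q.1) (app (cat q.1 p.2.1 q.2.1) (XX p q))
    rw [app_eq]; exact (cat_bd hp.bl hq.bl rfl).append (XX_bd a b s z hp hq)
  br := by
    show Bd (p.1 + q.1) (app (cat p.1 q.2.2 p.2.2) (XX p q))
    rw [app_eq]; exact (cat_bd hq.br hp.br (add_comm _ _)).append (XX_bd a b s z hp hq)
  l := by
    show el a b s z (p.1 + q.1) (app (cat q.1 p.2.1 q.2.1) (XX p q)) = _
    rw [app_eq, el_append, el_cat a b s z hq.bl rfl, XX_el a b s z hp hq, hp.l, hq.l, LL_mul hA]
  r := by
    show el a b s z (p.1 + q.1) (app (cat p.1 q.2.2 p.2.2) (XX p q)) = _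
    rw [app_eq, el_append, el_cat a b s z hp.br (add_comm _ _), XX_el a b s z hp hq, hp.r, hq.r, RR_mul hA]

theorem des (u : Mon) : Des a b s z (ex u) (val a b s z u) := by
  induction u with
  | a => exact des_letter a b s z 0 a (by norm_num) rfl rfl
  | b => exact des_letter a b s z 1 b (by norm_num) rfl rfl
  | s => exact des_letter a b s z 2 s (by norm_num) rfl rfl
  | z => exact des_letter a b s z 3 z (by norm_num) rfl rfl
  | m u v ihu ihv => exact des_mul hA a b s z ihu ihv

/-! ### Soundness of certificates -/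

omit hA in
/-- bitsets of lists of words of length `n` that evaluate to zero -/
def Z (n B : ℕ) : Prop := ∃ l, Bd n l ∧ B = bits l ∧ el a b s z n l = 0

omit hA in
lemma Z_zero (n : ℕ) : Z a b s z n 0 := ⟨[], (fun c hc => by cases hc), rfl, rfl⟩

omit hA in
lemma Z_xor {n B B' : ℕ} (h : Z a b s z n B) (h' : Z a b s z n B') : Z a b s z n (Nat.xor B B') := by
  obtain ⟨l, hl, hB, h0⟩ := h
  obtain ⟨l', hl', hB', h0'⟩ := h'
  refine ⟨l ++ l', hl.append hl', ?_, ?_⟩
  · rw [bits_append, ← hB, ← hB']; rfl
  · rw [el_append, h0, h0', add_zero]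

omit hA in
lemma Z_child {n B : ℕ} (d : ℕ) (hd : d < 8) (h : Z a b s z n B) : Z a b s z (n + 1) (Nat.shiftLeft B (Nat.mul d (Nat.pow 8 n))) := by
  obtain ⟨l, hl, hB, h0⟩ := h
  refine ⟨l.map (fun y => d * 8 ^ n + y), ?_, ?_, ?_⟩
  · intro c hc
    obtain ⟨y, hy, rfl⟩ := List.mem_map.mp hc
    have hy := hl y hy
    rw [pow_succ]
    have : d * 8 ^ n ≤ 7 * 8 ^ n := Nat.mul_le_mul_right _ (by omega)
    omega
  · have := bits_shift l (d * 8 ^ n)
    rw [← hB] at this
    show B <<< (d * 8 ^ n) = _
    rw [this]
    congr 1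
    refine List.map_congr_left (fun y _ => ?_)
    exact add_comm _ _
  · have := el_map a b s z 1 n d l hl
    rw [add_comm 1 n] at this
    rw [this, h0, mul_zero]

omit hA in
lemma Z_sh {D : ℕ} (l : List ℕ) (hl : Bd D l) (h0 : el a b s z D l = 0) (n k : ℕ) (ws : List ℕ) :
    Z a b s z n (sh n D k (bitsk k l) ws) := by
  induction ws with
  | nil => exact Z_zero a b s z n
  | cons w ws ih =>
    have e : sh n D k (bitsk k l) (w :: ws) = Bool.rec (motive := fun _ => ℕ) (sh n D k (bitsk k l) ws)
      (Nat.xor (Nat.shiftLeft (bitsk k l) w) (sh n D k (bitsk k l) ws)) (ok n D k w) := rfl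
    rw [e]
    cases hok : ok n D k w with
    | false => exact ih
    | true =>
      refine Z_xor a b s z ?_ ih
      unfold ok at hok
      cases h1 : Nat.ble (Nat.add D k) n with
      | false => rw [h1] at hok; cases hok
      | true =>
        rw [h1] at hok
        cases h2 : Nat.ble (Nat.succ w) (Nat.pow 8 n) with
        | false => rw [h2] at hok; cases hok
        | true =>
          rw [h2] at hok
          have h1 : D + k ≤ n := Nat.le_of_ble_eq_true h1
          have h2 : w < 8 ^ n := Nat.le_of_ble_eq_true h2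
          have h3 : w % 8 ^ (D + k) < 8 ^ k := Nat.le_of_ble_eq_true hok
          obtain ⟨m, rfl⟩ : ∃ m, n = m + (D + k) := ⟨n - (D + k), by omega⟩
          have hw := Nat.div_add_mod' w (8 ^ (D + k))
          set w1 := w / 8 ^ (D + k) with hw1
          set w2 := w % 8 ^ (D + k) with hw2
          have hb1 : w1 < 8 ^ m := by
            rw [hw1, Nat.div_lt_iff_lt_mul (by positivity), ← pow_add]; exact h2
          have hlist : ∀ l' : List ℕ, Bd D l' → Bd (m + (D + k)) (l'.map (fun y => w1 * 8 ^ (D + k) + (y * 8 ^ k + w2))) ∧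
              el a b s z (m + (D + k)) (l'.map (fun y => w1 * 8 ^ (D + k) + (y * 8 ^ k + w2))) =
                ev a b s z m w1 * (el a b s z D l' * ev a b s z k w2) := by
            intro l' hl'
            have hin : ∀ y ∈ l', y * 8 ^ k + w2 < 8 ^ (D + k) := by
              intro y hy
              have := hl' y hy
              calc y * 8 ^ k + w2 < y * 8 ^ k + 8 ^ k := by omega
                _ = (y + 1) * 8 ^ k := by ring
                _ ≤ 8 ^ D * 8 ^ k := Nat.mul_le_mul_right _ this
                _ = 8 ^ (D + k) := (pow_add 8 D k).symm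
            constructor
            · intro c hc
              obtain ⟨y, hy, rfl⟩ := List.mem_map.mp hc
              have := hin y hy
              calc w1 * 8 ^ (D + k) + (y * 8 ^ k + w2) < w1 * 8 ^ (D + k) + 8 ^ (D + k) := by omega
                _ = (w1 + 1) * 8 ^ (D + k) := by ring
                _ ≤ 8 ^ m * 8 ^ (D + k) := Nat.mul_le_mul_right _ hb1
                _ = 8 ^ (m + (D + k)) := (pow_add 8 m _).symm
            · induction l' with
              | nil => rw [List.map_nil]; unfold el; rw [S_nil, S_nil, zero_mul, mul_zero]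
              | cons y l' ih' =>
                have ih' := ih' (fun c hc => hl' c (List.mem_cons_of_mem _ hc)) (fun c hc => hin c (List.mem_cons_of_mem _ hc))
                unfold el at ih' ⊢
                rw [List.map_cons, S_cons, S_cons, ih', ev_cat a b s z m (D + k) w1 _ (hin y List.mem_cons_self),
                  ev_cat a b s z D k y w2 h3, add_mul, mul_add]
          obtain ⟨hb, he⟩ := hlist l hl
          refine ⟨_, hb, ?_, ?_⟩
          · show bitsk k l <<< w = _
            rw [bitsk_eq, bits_shift, List.map_map]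
            congr 1
            refine List.map_congr_left (fun y _ => ?_)
            show y * 8 ^ k + w = _
            rw [← hw]; ring
          · rw [he, h0, zero_mul, mul_zero]

lemma Z_itm (n : ℕ) (i : Item) : Z a b s z n (itm n i) := by
  cases i with
  | r u v k ws =>
    have hu := des hA a b s z u
    have hv := des hA a b s z v
    refine Z_sh a b s z (D := (ex u).1 + (ex v).1) (app (XX (ex u) (ex v)) (XX (ex v) (ex u))) ?_ ?_ n k ws
    · rw [app_eq]
      refine (XX_bd a b s z hu hv).append ?_
      rw [add_comm]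
      exact XX_bd a b s z hv hu
    · rw [app_eq, el_append, XX_el a b s z hu hv]
      have := XX_el a b s z hv hu
      rw [add_comm (ex v).1] at this
      rw [this]
      exact X_symm hA _ _
  | q u k ws =>
    have hu := des hA a b s z u
    refine Z_sh a b s z (D := (ex u).1 + (ex u).1) (XX (ex u) (ex u)) (XX_bd a b s z hu hu) ?_ n k ws
    rw [XX_el a b s z hu hu]
    exact X_self hA _

lemma Z_itms (n : ℕ) (l : List Item) : Z a b s z n (itms n l) := by
  induction l with
  | nil => exact Z_zero a b s z n
  | cons i l ih => exact Z_xor a b s z (Z_itm hA a b s z n i) ih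

lemma Z_total (c : Cert) : ∀ n, Z a b s z n (total c n) := by
  induction c with
  | o => intro n; exact Z_zero a b s z n
  | n l c0 c1 c2 c3 c4 c5 c6 c7 h0 h1 h2 h3 h4 h5 h6 h7 =>
    intro n
    cases n with
    | zero => exact Z_zero a b s z 0
    | succ n =>
      exact Z_xor a b s z (Z_itms hA a b s z (n + 1) l)
        (Z_xor a b s z (Z_child a b s z 0 (by norm_num) (h0 n))
        (Z_xor a b s z (Z_child a b s z 1 (by norm_num) (h1 n))
        (Z_xor a b s z (Z_child a b s z 2 (by norm_num) (h2 n))
        (Z_xor a b s z (Z_child a b s z 3 (by norm_num) (h3 n))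
        (Z_xor a b s z (Z_child a b s z 4 (by norm_num) (h4 n))
        (Z_xor a b s z (Z_child a b s z 5 (by norm_num) (h5 n))
        (Z_xor a b s z (Z_child a b s z 6 (by norm_num) (h6 n)) (Z_child a b s z 7 (by norm_num) (h7 n)))))))))

/-- a certificate shows that a list of words evaluates to zero -/
theorem cert_sound (c : Cert) (n : ℕ) (T : List ℕ) (h : Nat.beq (total c n) (bits T) = true) :
    el a b s z n T = 0 := by
  obtain ⟨l, hl, hB, h0⟩ := Z_total hA a b s z c n
  have h1 : total c n = bits T := Nat.eq_of_beq_eq_true h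
  rw [← h0]
  exact S_congr (two_end hA) _ _ _ (by rw [← h1, hB])

/-- two lists with the same bitset evaluate equally -/
theorem el_congr (n : ℕ) (T T' : List ℕ) (h : Nat.beq (bits T) (bits T') = true) :
    el a b s z n T = el a b s z n T' :=
  S_congr (two_end hA) _ _ _ (Nat.eq_of_beq_eq_true h)

end alt

end Pool.Agent.Helper341.Alt.W2
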